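import Mathlib

/-!
# Analytic quasi-orders, Borel reducibility, invariant universality: definitions
-/

namespace Pool.Agent.H51.InvUniv

/-- A binary relation on a standard Borel space `X` is analytic if it is the projection of a
Borel subset of `ω^ω × X × X`. -/
def AnalyticRel {X : Type} [MeasurableSpace X] (R : X → X → Prop) : Prop :=
  ∃ A : Set ((ℕ → ℕ) × X × X), MeasurableSet A ∧ ∀ x y, R x y ↔ ∃ z, (z, x, y) ∈ A

/-- Analytic quasi-orders: reflexive, transitive, analytic binary relations. -/
structure AnalyticQO {X : Type} [MeasurableSpace X] (R : X → X → Prop) : Prop where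
  refl : ∀ x, R x x
  trans : ∀ x y z, R x y → R y z → R x z
  analytic : AnalyticRel R

/-- Analytic equivalence relations. -/
structure AnalyticER {X : Type} [MeasurableSpace X] (E : X → X → Prop) : Prop where
  refl : ∀ x, E x x
  symm : ∀ x y, E x y → E y x
  trans : ∀ x y z, E x y → E y z → E x z
  analytic : AnalyticRel E

/-- Borel reducibility `R ≤_B S`: there is a Borel map `f` with `R x y ↔ S (f x) (f y)`. -/
def BorelRed {X Y : Type} [MeasurableSpace X] [MeasurableSpace Y]
    (R : X → X → Prop) (S : Y → Y → Prop) : Prop :=
  ∃ f : X → Y, Measurable f ∧ ∀ x y, R x y ↔ S (f x) (f y)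

/-- Borel bireducibility `R ~_B S`. -/
def BorelBired {X Y : Type} [MeasurableSpace X] [MeasurableSpace Y]
    (R : X → X → Prop) (S : Y → Y → Prop) : Prop :=
  BorelRed R S ∧ BorelRed S R

/-- Complete analytic quasi-orders: every analytic quasi-order on a standard Borel space is Borel
reducible to it. -/
structure CompleteQO {X : Type} [MeasurableSpace X] (S : X → X → Prop) : Prop where
  qo : AnalyticQO S
  complete : ∀ (Y : Type) [MeasurableSpace Y] [StandardBorelSpace Y] (R : Y → Y → Prop),
    AnalyticQO R → BorelRed R S

/-- The pair `(S, E)` is invariantly universal: for every analytic quasi-order `R` on a standard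
Borel space there is an `E`-invariant Borel set `B` such that the restriction of `S` to `B` is
Borel bireducible with `R`. -/
def InvariantlyUniversal {X : Type} [MeasurableSpace X] (S E : X → X → Prop) : Prop :=
  ∀ (Y : Type) [MeasurableSpace Y] [StandardBorelSpace Y] (R : Y → Y → Prop),
    AnalyticQO R →
      ∃ B : Set X, MeasurableSet B ∧ (∀ x y, x ∈ B → E x y → y ∈ B) ∧
        BorelBired (fun x y : B => S (x : X) (y : X)) R

end Pool.Agent.H51.InvUniv
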