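import Pool.Agent.H51.InvUniv.Defs

/-!
# Every complete analytic quasi-order is invariantly universal together with equality
-/

namespace Pool.Agent.H51.InvUniv

open Set Topology Filter

/-! ### coding of initial segments -/

/-- A code for the restriction of `a` to `p`. -/
def pre (a : ℕ → Bool) (p : ℕ) : ℕ := Encodable.encode (fun i : Fin p => a i)

lemma pre_eq_iff {a b : ℕ → Bool} {p : ℕ} : pre a p = pre b p ↔ ∀ i < p, a i = b i := by
  unfold pre
  rw [Encodable.encode_injective.eq_iff, funext_iff]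
  constructor
  · intro h i hi
    exact h ⟨i, hi⟩
  · intro h i
    exact h i i.2

lemma continuous_pre (p : ℕ) : Continuous (fun a : ℕ → Bool => pre a p) := by
  unfold pre
  have h1 : Continuous (fun a : ℕ → Bool => (fun i : Fin p => a i)) := by fun_prop
  exact (continuous_of_discreteTopology (f := fun s : Fin p → Bool => Encodable.encode s)).comp h1

lemma measurable_pre (p : ℕ) : Measurable (fun a : ℕ → Bool => pre a p) :=
  (continuous_pre p).measurable

lemma eq_of_infinite {J : Set ℕ} (hJ : J.Infinite) {a b : ℕ → Bool}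
    (h : ∀ q ∈ J, pre a q = pre b q) : a = b := by
  funext i
  obtain ⟨q, hq, hiq⟩ := hJ.exists_gt i
  exact pre_eq_iff.1 (h q hq) i hiq

/-! ### the relation Q -/

/-- The one step relation. -/
def Step (a b : ℕ → Bool) (x x' : ℕ → ℕ) : Prop :=
  ∀ p, x p = x' p ∨ (x p = pre a p ∧ x' p = pre b p)

/-- The one step relation `Q₀`. -/
def Q₀ (R : (ℕ → Bool) → (ℕ → Bool) → Prop) (x x' : ℕ → ℕ) : Prop :=
  ∃ a b, R a b ∧ Step a b x x'

lemma Q₀_refl {R : (ℕ → Bool) → (ℕ → Bool) → Prop} (hR : ∀ a, R a a) (x : ℕ → ℕ) : Q₀ R x x :=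
  ⟨fun _ => false, fun _ => false, hR _, fun _ => Or.inl rfl⟩

lemma chain_iff {α : Type} {r : α → α → Prop} (hr : ∀ a, r a a) (x y : α) :
    Relation.ReflTransGen r x y ↔
      ∃ c : ℕ → α, c 0 = x ∧ (∃ n, c n = y) ∧ ∀ i, r (c i) (c (i + 1)) := by
  constructor
  · intro h
    induction h using Relation.ReflTransGen.head_induction_on with
    | refl => exact ⟨fun _ => y, rfl, ⟨0, rfl⟩, fun _ => hr _⟩
    | @head a b hab _ ih =>
      obtain ⟨c, hc0, ⟨n, hn⟩, hc⟩ := ih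
      let d : ℕ → α := fun i => match i with
        | 0 => a
        | i + 1 => c i
      refine ⟨d, rfl, ⟨n + 1, hn⟩, ?_⟩
      intro i
      cases i with
      | zero =>
        change r a (c 0)
        rw [hc0]
        exact hab
      | succ i => exact hc i
  · rintro ⟨c, hc0, ⟨n, hn⟩, hc⟩
    have : ∀ k, Relation.ReflTransGen r (c 0) (c k) := by
      intro k
      induction k with
      | zero => exact Relation.ReflTransGen.refl
      | succ k ih => exact ih.tail (hc k)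
    have h := this n
    rwa [hc0, hn] at h

/-- The closure `Q` of the one step relation. -/
def Q (R : (ℕ → Bool) → (ℕ → Bool) → Prop) : (ℕ → ℕ) → (ℕ → ℕ) → Prop :=
  Relation.ReflTransGen (Q₀ R)

/-- projections along nonempty standard Borel spaces are analytic relations. -/
lemma analyticRel_of_proj {X W : Type} [MeasurableSpace X] [MeasurableSpace W]
    [StandardBorelSpace W] [Nonempty W] {R : X → X → Prop} (A : Set (W × X × X))
    (hA : MeasurableSet A) (h : ∀ x y, R x y ↔ ∃ w, (w, x, y) ∈ A) : AnalyticRel R := by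
  let := upgradeStandardBorel W
  obtain ⟨f, hf, hfs⟩ := PolishSpace.exists_nat_nat_continuous_surjective W
  refine ⟨{p | (f p.1, p.2.1, p.2.2) ∈ A}, ?_, ?_⟩
  · have : Measurable (fun p : (ℕ → ℕ) × X × X => (f p.1, p.2.1, p.2.2)) :=
      (hf.measurable.comp measurable_fst).prodMk
        ((measurable_fst.comp measurable_snd).prodMk (measurable_snd.comp measurable_snd))
    exact this hA
  · intro x y
    rw [h]
    constructor
    · rintro ⟨w, hw⟩
      obtain ⟨z, rfl⟩ := hfs w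
      exact ⟨z, hw⟩
    · rintro ⟨z, hz⟩
      exact ⟨f z, hz⟩

/-- the space of witnesses: chain, parameters, witnesses for `R`. -/
abbrev Wit : Type := (ℕ → (ℕ → ℕ)) × (ℕ → (ℕ → Bool)) × (ℕ → (ℕ → Bool)) × (ℕ → (ℕ → ℕ))

lemma analytic_Q {R : (ℕ → Bool) → (ℕ → Bool) → Prop} (hR : ∀ a, R a a) (hA : AnalyticRel R) :
    AnalyticRel (Q R) := by
  obtain ⟨A, hAm, hA⟩ := hA
  let A' : Set (Wit × (ℕ → ℕ) × (ℕ → ℕ)) :=
    {p | p.1.1 0 = p.2.1 ∧ (∃ n, p.1.1 n = p.2.2) ∧
      ∀ i, (p.1.2.2.2 i, p.1.2.1 i, p.1.2.2.1 i) ∈ A ∧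
        Step (p.1.2.1 i) (p.1.2.2.1 i) (p.1.1 i) (p.1.1 (i + 1))}
  refine analyticRel_of_proj (W := Wit) A' ?_ ?_
  · have hc : ∀ i, Measurable (fun p : Wit × (ℕ → ℕ) × (ℕ → ℕ) => p.1.1 i) := by
      intro i; fun_prop
    have ha : ∀ i, Measurable (fun p : Wit × (ℕ → ℕ) × (ℕ → ℕ) => p.1.2.1 i) := by
      intro i; fun_prop
    have hb : ∀ i, Measurable (fun p : Wit × (ℕ → ℕ) × (ℕ → ℕ) => p.1.2.2.1 i) := by
      intro i; fun_prop
    have hz : ∀ i, Measurable (fun p : Wit × (ℕ → ℕ) × (ℕ → ℕ) => p.1.2.2.2 i) := by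
      intro i; fun_prop
    have hx : Measurable (fun p : Wit × (ℕ → ℕ) × (ℕ → ℕ) => p.2.1) := by fun_prop
    have hy : Measurable (fun p : Wit × (ℕ → ℕ) × (ℕ → ℕ) => p.2.2) := by fun_prop
    have hcq : ∀ i q, Measurable (fun p : Wit × (ℕ → ℕ) × (ℕ → ℕ) => p.1.1 i q) := fun i q =>
      (measurable_pi_apply q).comp (hc i)
    have hA' : A' = {p : Wit × (ℕ → ℕ) × (ℕ → ℕ) | p.1.1 0 = p.2.1} ∩
        ((⋃ n, {p : Wit × (ℕ → ℕ) × (ℕ → ℕ) | p.1.1 n = p.2.2}) ∩
        (⋂ i, ({p : Wit × (ℕ → ℕ) × (ℕ → ℕ) | (p.1.2.2.2 i, p.1.2.1 i, p.1.2.2.1 i) ∈ A} ∩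
          ⋂ q, ({p : Wit × (ℕ → ℕ) × (ℕ → ℕ) | p.1.1 i q = p.1.1 (i + 1) q} ∪
            ({p : Wit × (ℕ → ℕ) × (ℕ → ℕ) | p.1.1 i q = pre (p.1.2.1 i) q} ∩
             {p : Wit × (ℕ → ℕ) × (ℕ → ℕ) | p.1.1 (i + 1) q = pre (p.1.2.2.1 i) q}))))) := by
      ext p
      simp only [A', Step, mem_ofPred_eq, mem_inter_iff, mem_iUnion, mem_iInter, mem_union]
    rw [hA']
    refine (measurableSet_eq_fun (hc 0) hx).inter ((MeasurableSet.iUnion fun n =>
      measurableSet_eq_fun (hc n) hy).inter (MeasurableSet.iInter fun i => ?_))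
    refine MeasurableSet.inter ?_ (MeasurableSet.iInter fun q => ?_)
    · exact ((hz i).prodMk ((ha i).prodMk (hb i))) hAm
    · exact (measurableSet_eq_fun (hcq i q) (hcq (i + 1) q)).union
        ((measurableSet_eq_fun (hcq i q) ((measurable_pre q).comp (ha i))).inter
          (measurableSet_eq_fun (hcq (i + 1) q) ((measurable_pre q).comp (hb i))))
  · intro x y
    rw [Q, chain_iff (Q₀_refl hR)]
    constructor
    · rintro ⟨c, hc0, hn, hc⟩
      choose a b hab hstep using hc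
      have : ∀ i, ∃ z, (z, a i, b i) ∈ A := fun i => (hA _ _).1 (hab i)
      choose z hz using this
      exact ⟨(c, a, b, z), hc0, hn, fun i => ⟨hz i, hstep i⟩⟩
    · rintro ⟨⟨c, a, b, z⟩, hc0, hn, h⟩
      exact ⟨c, hc0, hn, fun i => ⟨a i, b i, (hA _ _).2 ⟨z i, (h i).1⟩, (h i).2⟩⟩

lemma qo_Q {R : (ℕ → Bool) → (ℕ → Bool) → Prop} (hR : AnalyticQO R) : AnalyticQO (Q R) where
  refl := fun _ => Relation.ReflTransGen.refl
  trans := fun _ _ _ h1 h2 => Relation.ReflTransGen.trans h1 h2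
  analytic := analytic_Q hR.refl hR.analytic

/-! ### filling -/

/-- Fill the zeros of `w` by the codes of initial segments of `y`. -/
def fill (w : ℕ → ℕ) (y : ℕ → Bool) (q : ℕ) : ℕ := if w q = 0 then pre y q else w q - 1

lemma continuous_fill : Continuous (fun p : (ℕ → ℕ) × (ℕ → Bool) => fill p.1 p.2) := by
  refine continuous_pi fun q => ?_
  have h1 : Continuous (fun p : (ℕ → ℕ) × (ℕ → Bool) => (p.1 q, pre p.2 q)) :=
    ((continuous_apply q).comp continuous_fst).prodMk ((continuous_pre q).comp continuous_snd)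
  exact (continuous_of_discreteTopology
    (f := fun s : ℕ × ℕ => if s.1 = 0 then s.2 else s.1 - 1)).comp h1

lemma isOpen_forall_fill {W : Set (ℕ → ℕ)} (hW : IsOpen W) :
    IsOpen {w : ℕ → ℕ | ∀ y, fill w y ∈ W} := by
  have h1 : IsClosed {p : (ℕ → ℕ) × (ℕ → Bool) | fill p.1 p.2 ∈ Wᶜ} :=
    hW.isClosed_compl.preimage continuous_fill
  have h2 := isClosedMap_fst_of_compactSpace (X := ℕ → ℕ) (Y := ℕ → Bool) _ h1
  have h3 : {w : ℕ → ℕ | ∀ y, fill w y ∈ W} =
      (Prod.fst '' {p : (ℕ → ℕ) × (ℕ → Bool) | fill p.1 p.2 ∈ Wᶜ})ᶜ := by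
    ext w
    simp
  rw [h3]
  exact h2.isOpen_compl

lemma exists_cyl {W : Set (ℕ → ℕ)} (hW : IsOpen W) {x : ℕ → ℕ} (hx : x ∈ W) :
    ∃ n, ∀ y : ℕ → ℕ, (∀ i < n, y i = x i) → y ∈ W := by
  obtain ⟨s, ⟨x', n, rfl⟩, hxs, hs⟩ :=
    (PiNat.isTopologicalBasis_cylinders (E := fun _ : ℕ => ℕ)).exists_subset_of_mem_open hx hW
  refine ⟨n, fun y hy => hs ?_⟩
  intro i hi
  rw [hy i hi]
  exact hxs i hi

lemma isOpen_cyl (x : ℕ → ℕ) (n : ℕ) : IsOpen {y : ℕ → ℕ | ∀ i < n, y i = x i} :=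
  PiNat.isOpen_cylinder (fun _ : ℕ => ℕ) x n

lemma dense_of_cyl {W : Set (ℕ → ℕ)}
    (h : ∀ (x : ℕ → ℕ) (n : ℕ), ∃ y ∈ W, ∀ i < n, y i = x i) : Dense W := by
  rw [dense_iff_inter_open]
  intro U hU hne
  obtain ⟨x, hx⟩ := hne
  obtain ⟨n, hn⟩ := exists_cyl hU hx
  obtain ⟨y, hy, hyx⟩ := h x n
  exact ⟨y, hn y hyx, hy⟩

lemma exists_ext {W : Set (ℕ → ℕ)} (hW : IsOpen W) (hd : Dense W) (N : ℕ)
    (F : Finset (ℕ → ℕ)) :
    ∃ (v : ℕ → ℕ) (M : ℕ), N ≤ M ∧ ∀ φ ∈ F, ∀ x : ℕ → ℕ, (∀ q < N, x q = φ q) →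
      (∀ q, N ≤ q → q < M → x q = v q) → x ∈ W := by
  classical
  induction F using Finset.induction_on with
  | empty => exact ⟨fun _ => 0, N, le_rfl, by simp⟩
  | insert φ F _ ih =>
    obtain ⟨v, M, hNM, hv⟩ := ih
    let u : ℕ → ℕ := fun q => if q < N then φ q else v q
    obtain ⟨x₀, hx₀, hx₀W⟩ := hd.inter_open_nonempty _ (isOpen_cyl u M) ⟨u, fun _ _ => rfl⟩
    obtain ⟨M', hM'⟩ := exists_cyl hW hx₀W
    refine ⟨x₀, max M M', hNM.trans (le_max_left _ _), ?_⟩
    intro ψ hψ x hx1 hx2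
    rcases Finset.mem_insert.1 hψ with rfl | hψ
    · apply hM'
      intro i hi
      by_cases hiN : i < N
      · rw [hx1 i hiN, hx₀ i (hiN.trans_le hNM)]
        simp [u, hiN]
      · exact hx2 i (not_lt.1 hiN) (hi.trans_le (le_max_right _ _))
    · apply hv ψ hψ x hx1
      intro q hq1 hq2
      rw [hx2 q hq1 (hq2.trans_le (le_max_left _ _)), hx₀ q hq2]
      simp [u, not_lt.2 hq1]

lemma dense_forall_fill {W : Set (ℕ → ℕ)} (hW : IsOpen W) (hd : Dense W) :
    Dense {w : ℕ → ℕ | ∀ y, fill w y ∈ W} := by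
  classical
  apply dense_of_cyl
  intro w N
  let ext : (Fin N → Bool) → (ℕ → Bool) := fun σ i => if h : i < N then σ ⟨i, h⟩ else false
  obtain ⟨v, M, hNM, hv⟩ := exists_ext hW hd N (Finset.univ.image fun σ => fill w (ext σ))
  refine ⟨fun q => if q < N then w q else if q < M then v q + 1 else 0, ?_, ?_⟩
  · intro y
    apply hv (fill w (ext fun i => y i))
      (Finset.mem_image.2 ⟨fun i => y i, Finset.mem_univ _, rfl⟩)
    · intro q hq
      simp only [fill, hq, if_true]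
      have : pre y q = pre (ext fun i => y i) q := by
        rw [pre_eq_iff]
        intro i hi
        simp [ext, hi.trans hq]
      rw [this]
    · intro q hq1 hq2
      simp [fill, not_lt.2 hq1, hq2]
  · intro i hi
    simp [hi]

lemma exists_good (W : ℕ → Set (ℕ → ℕ)) (hW : ∀ k, IsOpen (W k)) (hd : ∀ k, Dense (W k)) :
    ∃ w : ℕ → ℕ, (∀ y k, fill w y ∈ W k) ∧ {q | w q = 0}.Infinite := by
  have hHo : ∀ k : ℕ, IsOpen {w : ℕ → ℕ | ∃ q, k < q ∧ w q = 0} := by
    intro k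
    have : {w : ℕ → ℕ | ∃ q, k < q ∧ w q = 0} =
        ⋃ q : ℕ, ⋃ _ : k < q, (fun w : ℕ → ℕ => w q) ⁻¹' {0} := by
      ext w
      simp
    rw [this]
    exact isOpen_iUnion fun q => isOpen_iUnion fun _ =>
      (isOpen_discrete _).preimage (continuous_apply q)
  have hHd : ∀ k : ℕ, Dense {w : ℕ → ℕ | ∃ q, k < q ∧ w q = 0} := by
    intro k
    apply dense_of_cyl
    intro x n
    refine ⟨fun q => if q < n then x q else 0, ⟨max n (k + 1), ?_, ?_⟩, ?_⟩
    · exact lt_of_lt_of_le (Nat.lt_succ_self k) (le_max_right _ _)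
    · simp
    · intro i hi
      simp [hi]
  have h := dense_iInter_of_isOpen_nat
    (f := fun k => {w : ℕ → ℕ | ∀ y, fill w y ∈ W k} ∩ {w : ℕ → ℕ | ∃ q, k < q ∧ w q = 0})
    (fun k => (isOpen_forall_fill (hW k)).inter (hHo k))
    (fun k => (dense_forall_fill (hW k) (hd k)).inter_of_isOpen_left (hHd k)
      (isOpen_forall_fill (hW k)))
  obtain ⟨w, hw⟩ := h.nonempty
  rw [mem_iInter] at hw
  refine ⟨w, fun y k => (hw k).1 y, ?_⟩
  rw [Set.infinite_iff_exists_gt]
  intro k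
  obtain ⟨q, hq, hq0⟩ := (hw k).2
  exact ⟨q, hq0, hq⟩

/-! ### the reduction -/

lemma inv_step {R : (ℕ → Bool) → (ℕ → Bool) → Prop} (hR : ∀ x y z, R x y → R y z → R x z)
    {y b : ℕ → Bool} {x x' : ℕ → ℕ} {J : Set ℕ} (hJ : J.Infinite) (hyb : R y b)
    (hx : ∀ q ∈ J, x q = pre b q) (h : Q₀ R x x') :
    ∃ (J' : Set ℕ) (b' : ℕ → Bool), J' ⊆ J ∧ J'.Infinite ∧ R y b' ∧
      ∀ q ∈ J', x' q = pre b' q := by
  obtain ⟨a, b', hab, hs⟩ := h
  by_cases hinf : {q ∈ J | x q = x' q}.Infinite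
  · refine ⟨_, b, fun q hq => hq.1, hinf, hyb, ?_⟩
    rintro q ⟨hqJ, hq⟩
    rw [← hq, hx q hqJ]
  · have hinf2 : {q ∈ J | x q = pre a q ∧ x' q = pre b' q}.Infinite := by
      have hsub : J ⊆ {q ∈ J | x q = x' q} ∪ {q ∈ J | x q = pre a q ∧ x' q = pre b' q} := by
        intro q hq
        rcases hs q with h | h
        · exact Or.inl ⟨hq, h⟩
        · exact Or.inr ⟨hq, h⟩
      rcases Set.infinite_union.1 (hJ.mono hsub) with h | h
      · exact absurd h hinf
      · exact h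
    have hba : b = a := by
      apply eq_of_infinite hinf2
      rintro q ⟨hqJ, hq1, _⟩
      rw [← hx q hqJ, hq1]
    subst hba
    exact ⟨_, b', fun q hq => hq.1, hinf2, hR _ _ _ hyb hab, fun q hq => hq.2.2⟩

lemma inv_chain {R : (ℕ → Bool) → (ℕ → Bool) → Prop} (hR : ∀ x y z, R x y → R y z → R x z)
    (hRr : ∀ x, R x x)
    {y : ℕ → Bool} {x x' : ℕ → ℕ} {J : Set ℕ} (hJ : J.Infinite)
    (hx : ∀ q ∈ J, x q = pre y q) (h : Q R x x') :
    ∃ (J' : Set ℕ) (b' : ℕ → Bool), J' ⊆ J ∧ J'.Infinite ∧ R y b' ∧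
      ∀ q ∈ J', x' q = pre b' q := by
  induction h with
  | refl => exact ⟨J, y, Subset.rfl, hJ, hRr y, hx⟩
  | tail _ hbc ih =>
    obtain ⟨J', b', hJJ, hJ', hyb, hx'⟩ := ih
    obtain ⟨J'', b'', h1, h2, h3, h4⟩ := inv_step hR hJ' hyb hx' hbc
    exact ⟨J'', b'', h1.trans hJJ, h2, h3, h4⟩

lemma fill_reduction {R : (ℕ → Bool) → (ℕ → Bool) → Prop} (hR : AnalyticQO R) {w : ℕ → ℕ}
    (hw : {q | w q = 0}.Infinite) (y y' : ℕ → Bool) :
    R y y' ↔ Q R (fill w y) (fill w y') := by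
  constructor
  · intro h
    refine Relation.ReflTransGen.single ⟨y, y', h, fun p => ?_⟩
    by_cases hp : w p = 0
    · right
      simp [fill, hp]
    · left
      simp [fill, hp]
  · intro h
    obtain ⟨J, b, hJ, hJi, hb, hJb⟩ := inv_chain hR.trans hR.refl (y := y) hw
      (fun q hq => by simp only [mem_ofPred_eq] at hq; simp [fill, hq]) h
    have : y' = b := by
      apply eq_of_infinite hJi
      intro q hq
      have hq0 : w q = 0 := hJ hq
      rw [← hJb q hq]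
      simp [fill, hq0]
    rwa [this]

/-! ### continuity on a comeager set -/

lemma exists_W {X : Type} [TopologicalSpace X] [MeasurableSpace X] [BorelSpace X]
    [SecondCountableTopology X] {f : (ℕ → ℕ) → X} (hf : Measurable f) :
    ∃ W : ℕ → Set (ℕ → ℕ), (∀ k, IsOpen (W k)) ∧ (∀ k, Dense (W k)) ∧
      ∀ V : Set X, IsOpen V → ∃ U : Set (ℕ → ℕ), IsOpen U ∧
        ∀ z ∈ ⋂ k, W k, f z ∈ V ↔ z ∈ U := by
  have hb := TopologicalSpace.isBasis_countableBasis X
  have hc := TopologicalSpace.countable_countableBasis X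
  have h1 : ∀ V : Set X, ∃ U : Set (ℕ → ℕ), IsOpen V → IsOpen U ∧ (f ⁻¹' V) =ᵇ U := by
    intro V
    by_cases hV : IsOpen V
    · obtain ⟨U, hU, hUe⟩ := (hf hV.measurableSet).residualEq_isOpen
      exact ⟨U, fun _ => ⟨hU, hUe⟩⟩
    · exact ⟨∅, fun h => absurd h hV⟩
  choose U hU using h1
  have h2 : (⋂ V ∈ TopologicalSpace.countableBasis X, {z : ℕ → ℕ | f z ∈ V ↔ z ∈ U V}) ∈
      residual (ℕ → ℕ) := by
    rw [countable_bInter_mem hc]
    intro V hV
    have := (hU V (TopologicalSpace.isOpen_of_mem_countableBasis hV)).2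
    rw [Filter.eventuallyEq_set] at this
    exact this
  rw [mem_residual] at h2
  obtain ⟨t, hts, htG, htd⟩ := h2
  obtain ⟨W, hWo, rfl⟩ := isGδ_iff_eq_iInter_nat.1 htG
  refine ⟨W, hWo, fun k => htd.mono (iInter_subset _ k), ?_⟩
  intro V hV
  refine ⟨⋃ V' ∈ {V' ∈ TopologicalSpace.countableBasis X | V' ⊆ V}, U V', ?_, ?_⟩
  · exact isOpen_biUnion fun V' hV' =>
      (hU V' (TopologicalSpace.isOpen_of_mem_countableBasis hV'.1)).1
  · intro z hz
    have hz' := hts hz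
    simp only [mem_iInter, mem_ofPred_eq] at hz'
    simp only [mem_iUnion, mem_ofPred_eq, exists_prop]
    constructor
    · intro hfz
      obtain ⟨V', hV', hfV', hV'V⟩ := hb.exists_subset_of_mem_open hfz hV
      exact ⟨V', ⟨hV', hV'V⟩, (hz' V' hV').1 hfV'⟩
    · rintro ⟨V', ⟨hV', hV'V⟩, hzU⟩
      exact hV'V ((hz' V' hV').2 hzU)

/-! ### Borel sections of continuous images of the Cantor space -/

lemma exists_section {X : Type} [TopologicalSpace X] [MeasurableSpace X] [BorelSpace X]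
    [T2Space X] {g : (ℕ → Bool) → X} (hg : Continuous g) :
    ∃ s : range g → (ℕ → Bool), Measurable s ∧ ∀ b, g (s b) = b := by
  let φ : (ℕ → Bool) → ℝ := fun y => (cantorSetHomeomorphNatToBool.symm y : ℝ)
  have hφc : Continuous φ :=
    continuous_subtype_val.comp cantorSetHomeomorphNatToBool.symm.continuous
  have hφi : Function.Injective φ :=
    Subtype.val_injective.comp cantorSetHomeomorphNatToBool.symm.injective
  have hφe : MeasurableEmbedding φ := hφc.measurable.measurableEmbedding hφi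
  have h1 : ∀ b : range g, ∃ y, g y = b ∧ ∀ y', g y' = b → φ y ≤ φ y' := by
    rintro ⟨b, y₀, hy₀⟩
    have hK : IsCompact (g ⁻¹' {b}) := (isClosed_singleton.preimage hg).isCompact
    obtain ⟨y, hy, hmin⟩ := hK.exists_isMinOn ⟨y₀, hy₀⟩ hφc.continuousOn
    exact ⟨y, hy, fun y' hy' => hmin hy'⟩
  choose s hs hmin using h1
  refine ⟨s, ?_, hs⟩
  rw [← hφe.measurable_comp_iff]
  refine measurable_of_Iic fun c => ?_
  have h2 : (φ ∘ s) ⁻¹' Iic c = Subtype.val ⁻¹' (g '' (φ ⁻¹' Iic c)) := by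
    ext b
    simp only [mem_preimage, mem_Iic, Function.comp_apply, mem_image]
    constructor
    · intro h
      exact ⟨s b, h, hs b⟩
    · rintro ⟨y, hy, hyb⟩
      exact (hmin b y hyb).trans hy
  rw [h2]
  have h3 : IsCompact (g '' (φ ⁻¹' Iic c)) := (isClosed_Iic.preimage hφc).isCompact.image hg
  exact measurable_subtype_coe h3.isClosed.measurableSet

/-! ### the main theorem -/

lemma main_cantor {X : Type} [MeasurableSpace X] [StandardBorelSpace X] {S : X → X → Prop}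
    (hS : CompleteQO S) {R : (ℕ → Bool) → (ℕ → Bool) → Prop} (hR : AnalyticQO R) :
    ∃ B : Set X, MeasurableSet B ∧ BorelBired (fun x y : B => S (x : X) (y : X)) R := by
  let := upgradeStandardBorel X
  obtain ⟨f, hf, hfS⟩ := hS.complete (ℕ → ℕ) (Q R) (qo_Q hR)
  obtain ⟨W, hWo, hWd, hW⟩ := exists_W hf
  obtain ⟨w, hwW, hw0⟩ := exists_good W hWo hWd
  let g : (ℕ → Bool) → X := fun y => f (fill w y)
  have hfc : Continuous (fun y : ℕ → Bool => fill w y) :=
    continuous_fill.comp (continuous_const.prodMk continuous_id)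
  have hg : Continuous g := by
    refine continuous_def.2 fun V hV => ?_
    obtain ⟨U, hU, hUV⟩ := hW V hV
    have : g ⁻¹' V = (fun y : ℕ → Bool => fill w y) ⁻¹' U := by
      ext y
      exact hUV _ (mem_iInter.2 fun k => hwW y k)
    rw [this]
    exact hU.preimage hfc
  have hgR : ∀ y y', R y y' ↔ S (g y) (g y') := fun y y' =>
    (fill_reduction hR hw0 y y').trans (hfS _ _)
  obtain ⟨s, hsm, hs⟩ := exists_section hg
  refine ⟨range g, (isCompact_range hg).isClosed.measurableSet, ⟨s, hsm, ?_⟩,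
    ⟨fun y => ⟨g y, mem_range_self y⟩, hg.measurable.subtype_mk, fun y y' => hgR y y'⟩⟩
  intro x y
  rw [hgR, hs, hs]

lemma BorelRed.trans {X Y Z : Type} [MeasurableSpace X] [MeasurableSpace Y] [MeasurableSpace Z]
    {R : X → X → Prop} {S : Y → Y → Prop} {T : Z → Z → Prop} (h1 : BorelRed R S)
    (h2 : BorelRed S T) : BorelRed R T := by
  obtain ⟨f, hf, hfR⟩ := h1
  obtain ⟨g, hg, hgR⟩ := h2
  exact ⟨g ∘ f, hg.comp hf, fun x y => (hfR x y).trans (hgR _ _)⟩

/-- Main theorem. -/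
theorem main {X : Type} [MeasurableSpace X] [StandardBorelSpace X] {S : X → X → Prop}
    (hS : CompleteQO S) : InvariantlyUniversal S (fun x y => x = y) := by
  intro Y _ _ R hR
  rcases isEmpty_or_nonempty Y with hY | hY
  · refine ⟨∅, MeasurableSet.empty, fun x y hx => absurd hx (notMem_empty x), ?_, ?_⟩
    · exact ⟨fun x => absurd x.2 (notMem_empty _), measurable_of_empty _,
        fun x => absurd x.2 (notMem_empty _)⟩
    · exact ⟨fun x => isEmptyElim x, measurable_of_empty _, fun x => isEmptyElim x⟩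
  · obtain ⟨i, hi, hinj⟩ := MeasurableSpace.measurable_injection_nat_bool_of_countablySeparated Y
    have hie : MeasurableEmbedding i := hi.measurableEmbedding hinj
    obtain ⟨r, hr, hri⟩ := hie.exists_measurable_extend measurable_id (fun _ => hY)
    have hri' : ∀ y, r (i y) = y := fun y => congrFun hri y
    obtain ⟨A, hAm, hA⟩ := hR.analytic
    have hR' : AnalyticQO (fun a b : ℕ → Bool => R (r a) (r b)) := by
      refine ⟨fun a => hR.refl _, fun a b c => hR.trans _ _ _, ?_⟩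
      refine ⟨{p | (p.1, r p.2.1, r p.2.2) ∈ A}, ?_, fun x y => hA _ _⟩
      have : Measurable (fun p : (ℕ → ℕ) × (ℕ → Bool) × (ℕ → Bool) =>
          (p.1, r p.2.1, r p.2.2)) :=
        measurable_fst.prodMk ((hr.comp (measurable_fst.comp measurable_snd)).prodMk
          (hr.comp (measurable_snd.comp measurable_snd)))
      exact this hAm
    obtain ⟨B, hB, h1, h2⟩ := main_cantor hS hR'
    refine ⟨B, hB, fun x y hx hxy => hxy ▸ hx, ?_, ?_⟩
    · exact h1.trans ⟨r, hr, fun _ _ => Iff.rfl⟩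
    · refine BorelRed.trans ⟨i, hi, fun x y => ?_⟩ h2
      simp only [hri']

end Pool.Agent.H51.InvUniv
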